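import Pool.Agent.H44.R2.Defs

/-!
# R2 Basic : general identities (sections 1.1 to 1.3 of the paper)
-/

set_option autoImplicit false
set_option linter.unusedSectionVars false

open Polynomial Matrix

namespace R2

variable {F : Type*} [Field F] {D : Type*} [Fintype D] [DecidableEq D]

section lp

variable {V : Type*} [AddCommGroup V] [Module F V]

/-- genericity -/
theorem LP.of_generic [Infinite F] {f g : V → F} (hg : LP g) (hf : LP f) {v₀ : V}
    (h0 : g v₀ ≠ 0) (h : ∀ v, g v ≠ 0 → f v = 0) : ∀ v, f v = 0 := by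
  refine LP.eq_zero_of_mul hg hf (fun v => ?_) h0
  by_cases hv : g v = 0
  · rw [hv, zero_mul]
  · rw [h v hv, mul_zero]

end lp

theorem Xm_apply (x : D → F) (p q : D × Fin 2) : Xm x p q = if p = q then x p.1 else 0 := by
  unfold Xm
  rw [Matrix.diagonal_apply]

theorem Xm_mulVec (x : D → F) (u : D × Fin 2 → F) (p : D × Fin 2) :
    (Xm x *ᵥ u) p = x p.1 * u p := by
  unfold Xm
  rw [Matrix.mulVec_diagonal]

theorem vecMul_Xm (x : D → F) (u : D × Fin 2 → F) (p : D × Fin 2) :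
    (u ᵥ* Xm x) p = u p * x p.1 := by
  unfold Xm
  rw [Matrix.vecMul_diagonal]

theorem Xm_zero : Xm (0 : D → F) = 0 := by
  unfold Xm
  ext p q
  simp [Matrix.diagonal_apply]

theorem Xm_add (x y : D → F) : Xm (x + y) = Xm x + Xm y := by
  unfold Xm
  ext p q
  by_cases h : p = q
  · subst h; simp
  · simp [Matrix.diagonal_apply, h]

theorem Xm_sub (x y : D → F) : Xm (x - y) = Xm x - Xm y := by
  unfold Xm
  ext p q
  by_cases h : p = q
  · subst h; simp
  · simp [Matrix.diagonal_apply, h]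

variable (I : Inst F D)

theorem Del_zero : Del I 0 = 1 := by
  unfold Del
  rw [Xm_zero, mul_zero, sub_zero, Matrix.det_one]

theorem K_zero : K I 0 = I.mu := by
  unfold K
  rw [Xm_zero, mul_zero, sub_zero, Matrix.adjugate_one, Matrix.one_mulVec]

theorem Lv_zero : Lv I 0 = I.nu := by
  unfold Lv
  rw [Xm_zero, zero_mul, sub_zero, Matrix.adjugate_one, Matrix.vecMul_one]

theorem H_eq (x : D → F) : H I x = I.nu ⬝ᵥ (Xm x *ᵥ K I x) := by
  unfold H dotProduct
  exact Finset.sum_congr rfl fun p _ => by rw [Xm_mulVec]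

/-! ### everything is polynomial -/

theorem LP_TX (p q : D × Fin 2) : LP (fun x : D → F => (1 - I.T * Xm x) p q) := by
  refine ((LP.const ((1 : Matrix (D × Fin 2) (D × Fin 2) F) p q)).sub
    ((LP.const (I.T p q)).mul (LP.coord q.1))).congr fun x => ?_
  rw [Matrix.sub_apply]
  congr 1
  unfold Xm
  rw [Matrix.mul_diagonal]

theorem LP_XT (p q : D × Fin 2) : LP (fun x : D → F => (1 - Xm x * I.T) p q) := by
  refine ((LP.const ((1 : Matrix (D × Fin 2) (D × Fin 2) F) p q)).sub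
    ((LP.coord p.1).mul (LP.const (I.T p q)))).congr fun x => ?_
  rw [Matrix.sub_apply]
  congr 1
  unfold Xm
  rw [Matrix.diagonal_mul]

theorem LP_Del : LP (fun x : D → F => Del I x) := LP.det (LP_TX I)

theorem LP_adj (p q : D × Fin 2) : LP (fun x : D → F => (1 - I.T * Xm x).adjugate p q) :=
  LP.adjugate (LP_TX I) p q

theorem LP_K (p : D × Fin 2) : LP (fun x : D → F => K I x p) := by
  refine (LP.sum Finset.univ fun q _ => (LP_adj I p q).mul (LP.const (I.mu q))).congr fun x => ?_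
  rfl

theorem LP_Lv (p : D × Fin 2) : LP (fun x : D → F => Lv I x p) := by
  refine (LP.sum Finset.univ fun q _ => (LP.const (I.nu q)).mul
    (LP.adjugate (LP_XT I) q p)).congr fun x => ?_
  rfl

theorem LP_H : LP (fun x : D → F => H I x) :=
  LP.sum Finset.univ fun p _ => (LP.const (I.nu p)).mul ((LP.coord p.1).mul (LP_K I p))

/-! ### fixed point equations -/

theorem Del_comm (x : D → F) : (1 - Xm x * I.T).det = Del I x := by
  unfold Del
  exact Matrix.det_one_sub_mul_comm (Xm x) I.T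

theorem K_mat (x : D → F) : (1 - I.T * Xm x) *ᵥ K I x = Del I x • I.mu := by
  unfold K
  rw [Matrix.mulVec_mulVec, Matrix.mul_adjugate, Matrix.smul_mulVec, Matrix.one_mulVec]
  rfl

theorem Lv_mat (x : D → F) : Lv I x ᵥ* (1 - Xm x * I.T) = Del I x • I.nu := by
  unfold Lv
  rw [Matrix.vecMul_vecMul, Matrix.adjugate_mul, Del_comm, Matrix.vecMul_smul, Matrix.vecMul_one]

theorem K_mat' (x : D → F) : K I x = Del I x • I.mu + I.T *ᵥ (Xm x *ᵥ K I x) := by
  have h := K_mat I x
  rw [Matrix.sub_mulVec, Matrix.one_mulVec, ← Matrix.mulVec_mulVec] at h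
  rw [← h, sub_add_cancel]

theorem Lv_mat' (x : D → F) : Lv I x = Del I x • I.nu + (Lv I x ᵥ* Xm x) ᵥ* I.T := by
  have h := Lv_mat I x
  rw [Matrix.vecMul_sub, Matrix.vecMul_one, ← Matrix.vecMul_vecMul] at h
  rw [← h, sub_add_cancel]

/-- `K_i = Del mu_i + sum_j x_j T_ij K_j` -/
theorem K_comp (x : D → F) (i : D) : comp (K I x) i =
    Del I x • comp I.mu i + ∑ j, x j • (blk I.T i j *ᵥ comp (K I x) j) := by
  funext a
  have h := congrFun (K_mat' I x) (i, a)
  rw [Pi.add_apply, Pi.smul_apply] at h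
  rw [Pi.add_apply, Pi.smul_apply, Finset.sum_apply]
  refine h.trans ?_
  congr 1
  change ∑ q, I.T (i, a) q * (Xm x *ᵥ K I x) q = _
  rw [Fintype.sum_prod_type]
  refine Finset.sum_congr rfl fun j _ => ?_
  rw [Pi.smul_apply, smul_eq_mul]
  change _ = x j * ∑ b, I.T (i, a) (j, b) * K I x (j, b)
  rw [Finset.mul_sum]
  refine Finset.sum_congr rfl fun b _ => ?_
  rw [Xm_mulVec]
  ring

theorem H_comp (x : D → F) : H I x = ∑ i, x i * dot (comp I.nu i) (comp (K I x) i) := by
  unfold H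
  rw [Fintype.sum_prod_type]
  refine Finset.sum_congr rfl fun i _ => ?_
  rw [Fin.sum_univ_two]
  unfold dot comp
  ring

/-- uniqueness of the fixed point at a regular point -/
theorem K_unique {x : D → F} (hx : Del I x ≠ 0) {u : D → Fin 2 → F} {c : F}
    (h : ∀ i, u i = c • comp I.mu i + ∑ j, x j • (blk I.T i j *ᵥ u j)) :
    ∀ i, Del I x • u i = c • comp (K I x) i := by
  -- the vector `Del u - c K` is in the kernel of `1 - T X`
  set v : D × Fin 2 → F := fun p => Del I x * u p.1 p.2 - c * K I x p with hv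
  have h1 : (1 - I.T * Xm x) *ᵥ v = 0 := by
    have h2 : v = Del I x • (fun p : D × Fin 2 => u p.1 p.2) - c • K I x := by
      funext p; simp [hv]
    have h3 : (1 - I.T * Xm x) *ᵥ (fun p : D × Fin 2 => u p.1 p.2) = c • I.mu := by
      rw [Matrix.sub_mulVec, Matrix.one_mulVec, ← Matrix.mulVec_mulVec]
      funext p
      rw [Pi.sub_apply, Pi.smul_apply]
      have h4 := congrFun (h p.1) p.2
      rw [Pi.add_apply, Pi.smul_apply, Finset.sum_apply] at h4
      have h5 : (I.T *ᵥ (Xm x *ᵥ fun p : D × Fin 2 => u p.1 p.2)) p =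
          ∑ j, (x j • (blk I.T p.1 j *ᵥ u j)) p.2 := by
        change ∑ q, I.T p q * (Xm x *ᵥ fun p : D × Fin 2 => u p.1 p.2) q = _
        rw [Fintype.sum_prod_type]
        refine Finset.sum_congr rfl fun j _ => ?_
        rw [Pi.smul_apply, smul_eq_mul]
        change _ = x j * ∑ b, I.T (p.1, p.2) (j, b) * u j b
        rw [Finset.mul_sum]
        refine Finset.sum_congr rfl fun b _ => ?_
        rw [Xm_mulVec]
        ring
      rw [h5, h4]
      simp only [comp]
      ring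
    rw [h2, Matrix.mulVec_sub, Matrix.mulVec_smul, Matrix.mulVec_smul, h3, K_mat, smul_smul,
      smul_smul, mul_comm c, sub_self]
  have h2 : v = 0 := Matrix.eq_zero_of_mulVec_eq_zero hx h1
  intro i
  funext a
  have h3 := congrFun h2 (i, a)
  simp only [hv, Pi.zero_apply] at h3
  rw [Pi.smul_apply, Pi.smul_apply, smul_eq_mul, smul_eq_mul]
  exact sub_eq_zero.1 h3

/-! ### identity (E) -/

theorem E_aux (a b : D → F) : Lv I b ⬝ᵥ (Xm a *ᵥ K I a) - Lv I b ⬝ᵥ (Xm b *ᵥ K I a) =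
    Del I b * H I a - Del I a * (Lv I b ⬝ᵥ (Xm b *ᵥ I.mu)) := by
  have h1 : Lv I b ⬝ᵥ (Xm a *ᵥ K I a) = Del I b * H I a +
      ((Lv I b ᵥ* Xm b) ᵥ* I.T) ⬝ᵥ (Xm a *ᵥ K I a) := by
    conv_lhs => rw [Lv_mat' I b]
    rw [add_dotProduct, smul_dotProduct, smul_eq_mul, ← H_eq]
  have h2 : ((Lv I b ᵥ* Xm b) ᵥ* I.T) ⬝ᵥ (Xm a *ᵥ K I a) =
      Lv I b ⬝ᵥ (Xm b *ᵥ (I.T *ᵥ (Xm a *ᵥ K I a))) := by
    rw [← Matrix.dotProduct_mulVec, ← Matrix.dotProduct_mulVec]
  have h3 : I.T *ᵥ (Xm a *ᵥ K I a) = K I a - Del I a • I.mu := by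
    conv_rhs => rw [K_mat' I a]
    rw [add_sub_cancel_left]
  rw [h1, h2, h3, Matrix.mulVec_sub, dotProduct_sub, Matrix.mulVec_smul, dotProduct_smul,
    smul_eq_mul]
  ring

theorem Lv_mu [Infinite F] (b : D → F) : Lv I b ⬝ᵥ (Xm b *ᵥ I.mu) = H I b := by
  have hLP : LP (fun b : D → F => Lv I b ⬝ᵥ (Xm b *ᵥ I.mu) - H I b) := by
    refine ((LP.sum Finset.univ fun p _ => (LP_Lv I p).mul ((LP.coord p.1).mul
      (LP.const (I.mu p)))).sub (LP_H I)).congr fun x => ?_
    congr 1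
    unfold dotProduct
    exact Finset.sum_congr rfl fun p _ => by rw [Xm_mulVec]
  have h := LP.of_generic (LP_Del I) hLP (v₀ := 0) (by rw [Del_zero]; exact one_ne_zero)
    (fun v hv => by
      have h1 := E_aux I v v
      rw [sub_self] at h1
      have h2 : Del I v * (Lv I v ⬝ᵥ (Xm v *ᵥ I.mu) - H I v) = 0 := by
        rw [mul_sub, ← neg_sub, ← h1, neg_zero]
      exact (mul_eq_zero.1 h2).resolve_left hv)
  exact sub_eq_zero.1 (h b)

/-- identity (E): `sum_i (a_i - b_i) L_i(b) K_i(a) = Del(b) H(a) - Del(a) H(b)` -/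
theorem E_id [Infinite F] (a b : D → F) :
    ∑ i, (a i - b i) * dot (comp (Lv I b) i) (comp (K I a) i) =
      Del I b * H I a - Del I a * H I b := by
  have h := E_aux I a b
  rw [Lv_mu] at h
  rw [← h]
  unfold dotProduct
  rw [← Finset.sum_sub_distrib, Fintype.sum_prod_type]
  refine Finset.sum_congr rfl fun i _ => ?_
  rw [Fin.sum_univ_two]
  simp only [Xm_mulVec, dot, comp]
  ring

end R2
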