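import Pool.Agent.H44.R2.LP

/-!
# R2 Defs : instances, odd and genuine sets (MP_966f71_lc, paper h50_rank2_paper.md, section 0)

`D` is the index set, `N_i = Fin 2 → F`.  An instance is `T` (a matrix over `D × Fin 2`), a vector
`mu` and a covector `nu`.  For `x : D → F`: `Xm x` is the diagonal matrix with entries `x i` (twice),
`Del I x = det (1 - T X)`, and, with the adjugate,
`K I x = adj(1 - T X) mu`, `Lv I x = nu adj(1 - X T)`, `H I x = nu X K`:
for `Del I x ≠ 0` these are `Del` times `k(x)`, `l(x)`, `h(x)` of the paper.  All of them are polynomial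
in `x`, so that no regularity assumption is needed in the definitions.
-/

set_option autoImplicit false
set_option linter.unusedSectionVars false

open Polynomial Matrix

namespace R2

variable {F : Type*} [Field F] {D : Type*} [Fintype D] [DecidableEq D]

/-- local data on `D` -/
structure Inst (F : Type*) (D : Type*) where
  T : Matrix (D × Fin 2) (D × Fin 2) F
  mu : D × Fin 2 → F
  nu : D × Fin 2 → F

/-- the diagonal matrix of `x` -/
def Xm (x : D → F) : Matrix (D × Fin 2) (D × Fin 2) F := Matrix.diagonal fun p => x p.1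

/-- component in `N_i` -/
def comp (u : D × Fin 2 → F) (i : D) : Fin 2 → F := fun a => u (i, a)

/-- the block `T_ij` -/
def blk (T : Matrix (D × Fin 2) (D × Fin 2) F) (i j : D) : Matrix (Fin 2) (Fin 2) F :=
  fun a b => T (i, a) (j, b)

/-- determinant of two vectors of `F^2` -/
def wedge (u v : Fin 2 → F) : F := u 0 * v 1 - u 1 * v 0

/-- pairing of `F^2` with itself -/
def dot (u v : Fin 2 → F) : F := u 0 * v 0 + u 1 * v 1

def Del (I : Inst F D) (x : D → F) : F := (1 - I.T * Xm x).det

def K (I : Inst F D) (x : D → F) : D × Fin 2 → F := (1 - I.T * Xm x).adjugate *ᵥ I.mu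

def Lv (I : Inst F D) (x : D → F) : D × Fin 2 → F := I.nu ᵥ* (1 - Xm x * I.T).adjugate

def H (I : Inst F D) (x : D → F) : F := ∑ p, I.nu p * (x p.1 * K I x p)

/-- `tau_ij = nu_i T_ij mu_j` -/
def tau (I : Inst F D) (i j : D) : F := dot (comp I.nu i) (blk I.T i j *ᵥ comp I.mu j)

/-- `x` is supported on `S` -/
def Sp (S : Finset D) (x : D → F) : Prop := ∀ i, i ∉ S → x i = 0

/-- `S` is odd -/
def Odd (I : Inst F D) (S : Finset D) : Prop := ∀ x, Sp S x → H I x = 0

/-- `S` is genuine -/
def Genuine (I : Inst F D) (S : Finset D) : Prop :=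
  ∀ i ∈ S, ∀ j ∈ S, i ≠ j → tau I i j = 0 → ∀ x y, Sp S x → Sp S y → (∀ a, a ≠ j → x a = y a) →
    wedge (comp (K I x) i) (comp (K I y) i) = 0

/-- `mu_i` and `nu_i` are nonzero -/
def Nondeg (I : Inst F D) : Prop := ∀ i, comp I.mu i ≠ 0 ∧ comp I.nu i ≠ 0

/-- locally odd instances -/
def LocOdd (I : Inst F D) : Prop :=
  Nondeg I ∧ ∀ S : Finset D, S.card ≤ 5 → Odd I S ∧ Genuine I S

/-- base change to the point `c` -/
noncomputable def shift (I : Inst F D) (c : D → F) : Inst F D where
  T := (1 - I.T * Xm c)⁻¹ * I.T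
  mu := (1 - I.T * Xm c)⁻¹ *ᵥ I.mu
  nu := I.nu ᵥ* (1 - Xm c * I.T)⁻¹

end R2
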