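import Mathlib

/-!
# R2 LP : functions that are polynomial along lines

`LP f`: the restriction of `f : V → F` to every line is a polynomial function.  Over an infinite field
a product of two such functions vanishes only if one of the two vanishes.
-/

set_option autoImplicit false
set_option linter.unusedSectionVars false

open Polynomial

namespace R2

variable {F : Type*} [Field F] {V V' : Type*} [AddCommGroup V] [Module F V] [AddCommGroup V']
  [Module F V']

/-- `f` is polynomial along every line -/
def LP (f : V → F) : Prop := ∀ p q : V, ∃ P : F[X], ∀ s : F, f (p + s • q) = P.eval s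

namespace LP

theorem const (c : F) : LP (fun _ : V => c) := fun _ _ => ⟨C c, fun s => by simp⟩

theorem lin (φ : V →ₗ[F] F) : LP (fun v => φ v) := fun p q =>
  ⟨C (φ p) + X * C (φ q), fun s => by
    simp only [map_add, map_smul, smul_eq_mul, eval_add, eval_mul, eval_C, eval_X]⟩

theorem add {f g : V → F} (hf : LP f) (hg : LP g) : LP (fun v => f v + g v) := by
  intro p q
  obtain ⟨P, hP⟩ := hf p q
  obtain ⟨Q, hQ⟩ := hg p q
  exact ⟨P + Q, fun s => by simp only [hP, hQ, eval_add]⟩

theorem mul {f g : V → F} (hf : LP f) (hg : LP g) : LP (fun v => f v * g v) := by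
  intro p q
  obtain ⟨P, hP⟩ := hf p q
  obtain ⟨Q, hQ⟩ := hg p q
  exact ⟨P * Q, fun s => by simp only [hP, hQ, eval_mul]⟩

theorem neg {f : V → F} (hf : LP f) : LP (fun v => - f v) := by
  intro p q
  obtain ⟨P, hP⟩ := hf p q
  exact ⟨-P, fun s => by simp only [hP, eval_neg]⟩

theorem sub {f g : V → F} (hf : LP f) (hg : LP g) : LP (fun v => f v - g v) := by
  intro p q
  obtain ⟨P, hP⟩ := hf p q
  obtain ⟨Q, hQ⟩ := hg p q
  exact ⟨P - Q, fun s => by simp only [hP, hQ, eval_sub]⟩

theorem pow {f : V → F} (hf : LP f) (n : ℕ) : LP (fun v => f v ^ n) := by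
  intro p q
  obtain ⟨P, hP⟩ := hf p q
  exact ⟨P ^ n, fun s => by simp only [hP, eval_pow]⟩

theorem sum {ι : Type*} (S : Finset ι) {f : ι → V → F} (hf : ∀ i ∈ S, LP (f i)) :
    LP (fun v => ∑ i ∈ S, f i v) := by
  classical
  induction S using Finset.induction_on with
  | empty => simpa using const (V := V) (0 : F)
  | insert a S ha ih =>
    have h1 := (hf a (Finset.mem_insert_self a S)).add
      (ih fun i hi => hf i (Finset.mem_insert_of_mem hi))
    refine fun p q => ?_
    obtain ⟨P, hP⟩ := h1 p q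
    exact ⟨P, fun s => by rw [← hP]; simp only [Finset.sum_insert ha]⟩

theorem prod {ι : Type*} (S : Finset ι) {f : ι → V → F} (hf : ∀ i ∈ S, LP (f i)) :
    LP (fun v => ∏ i ∈ S, f i v) := by
  classical
  induction S using Finset.induction_on with
  | empty => simpa using const (V := V) (1 : F)
  | insert a S ha ih =>
    have h1 := (hf a (Finset.mem_insert_self a S)).mul
      (ih fun i hi => hf i (Finset.mem_insert_of_mem hi))
    refine fun p q => ?_
    obtain ⟨P, hP⟩ := h1 p q
    exact ⟨P, fun s => by rw [← hP]; simp only [Finset.prod_insert ha]⟩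

/-- composition with an affine map `v' ↦ c + φ v'` -/
theorem comp {f : V → F} (hf : LP f) (φ : V' →ₗ[F] V) (c : V) : LP (fun v => f (c + φ v)) := by
  intro p q
  obtain ⟨P, hP⟩ := hf (c + φ p) (φ q)
  refine ⟨P, fun s => ?_⟩
  rw [← hP]
  simp only [map_add, map_smul, add_assoc]

theorem comp' {f : V → F} (hf : LP f) (φ : V' →ₗ[F] V) : LP (fun v => f (φ v)) := by
  intro p q
  obtain ⟨P, hP⟩ := hf (φ p) (φ q)
  refine ⟨P, fun s => ?_⟩
  rw [← hP]
  simp only [map_add, map_smul]

theorem congr {f g : V → F} (hf : LP f) (h : ∀ v, g v = f v) : LP g := by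
  have : g = f := funext h
  rw [this]; exact hf

/-- coordinates -/
theorem coord {D : Type*} (i : D) : LP (fun x : D → F => x i) :=
  (lin (LinearMap.proj i : (D → F) →ₗ[F] F)).congr fun _ => rfl

theorem det {n : Type*} [Fintype n] [DecidableEq n] {M : V → Matrix n n F}
    (hM : ∀ i j, LP (fun v => M v i j)) : LP (fun v => (M v).det) := by
  have h1 : LP (fun v => ∑ σ : Equiv.Perm n, ((Equiv.Perm.sign σ : ℤ) : F) * ∏ i, M v (σ i) i) :=
    sum _ fun σ _ => (const _).mul (prod _ fun i _ => hM _ _)
  refine h1.congr fun v => ?_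
  rw [Matrix.det_apply']

theorem adjugate {n : Type*} [Fintype n] [DecidableEq n] {M : V → Matrix n n F}
    (hM : ∀ i j, LP (fun v => M v i j)) (i j : n) : LP (fun v => (M v).adjugate i j) := by
  have h1 : LP (fun v => ((M v).updateRow j (Pi.single i 1)).det) := by
    refine det fun a b => ?_
    by_cases h : a = j
    · subst h
      refine (const ((Pi.single i (1 : F) : n → F) b)).congr fun v => ?_
      rw [Matrix.updateRow_self]
    · refine (hM a b).congr fun v => ?_
      rw [Matrix.updateRow_ne h]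
  refine h1.congr fun v => ?_
  rw [Matrix.adjugate_apply]

/-- the basic principle -/
theorem eq_zero_of_mul [Infinite F] {f g : V → F} (hf : LP f) (hg : LP g)
    (h : ∀ v, f v * g v = 0) {v₀ : V} (hv : f v₀ ≠ 0) : ∀ v, g v = 0 := by
  intro w
  obtain ⟨P, hP⟩ := hf v₀ (w - v₀)
  obtain ⟨Q, hQ⟩ := hg v₀ (w - v₀)
  have h1 : P * Q = 0 := by
    refine Polynomial.funext fun s => ?_
    rw [eval_mul, ← hP, ← hQ, h, eval_zero]
  have h2 : P ≠ 0 := by
    rintro rfl
    have := hP 0
    rw [zero_smul, add_zero, eval_zero] at this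
    exact hv this
  have h3 : Q = 0 := (mul_eq_zero.1 h1).resolve_left h2
  have h4 := hQ 1
  rw [one_smul, add_sub_cancel, h3, eval_zero] at h4
  exact h4

/-- two functions which are not identically zero have a common non-zero -/
theorem exists_ne [Infinite F] {f g : V → F} (hf : LP f) (hg : LP g) {v w : V} (hv : f v ≠ 0)
    (hw : g w ≠ 0) : ∃ u, f u ≠ 0 ∧ g u ≠ 0 := by
  by_contra hcon
  push Not at hcon
  refine hw (eq_zero_of_mul hf hg (fun u => ?_) hv w)
  by_cases h : f u = 0
  · rw [h, zero_mul]
  · rw [hcon u h, mul_zero]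

theorem exists_ne_finset [Infinite F] {ι : Type*} (S : Finset ι) {f : ι → V → F}
    (hf : ∀ i ∈ S, LP (f i)) (h : ∀ i ∈ S, ∃ v, f i v ≠ 0) : ∃ u, ∀ i ∈ S, f i u ≠ 0 := by
  classical
  induction S using Finset.induction_on with
  | empty => exact ⟨0, by simp⟩
  | insert a S ha ih =>
    obtain ⟨u, hu⟩ := ih (fun i hi => hf i (Finset.mem_insert_of_mem hi))
      (fun i hi => h i (Finset.mem_insert_of_mem hi))
    obtain ⟨w, hw⟩ := h a (Finset.mem_insert_self a S)
    have hP : LP (fun v => ∏ i ∈ S, f i v) :=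
      prod S fun i hi => hf i (Finset.mem_insert_of_mem hi)
    obtain ⟨z, hz1, hz2⟩ := exists_ne (hf a (Finset.mem_insert_self a S)) hP hw
      (Finset.prod_ne_zero_iff.2 hu)
    refine ⟨z, fun i hi => ?_⟩
    rcases Finset.mem_insert.1 hi with rfl | hi
    · exact hz1
    · exact Finset.prod_ne_zero_iff.1 hz2 i hi

end LP

end R2
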